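import Mathlib
import Pool.Agent.V11147.SimB
import Pool.Agent.V11147.SimD

open Finset
open Pool.Agent.V11147.Sim

namespace Pool.Agent.Results.MP_598d44_co.ExactValue

/-- the vertex set of `L(K_n)` -/
abbrev EK (n : ℕ) : Type := (⊤ : SimpleGraph (Fin n)).edgeSet

/-- the line graph of the complete graph on `n` vertices -/
abbrev LK (n : ℕ) : SimpleGraph (EK n) := (⊤ : SimpleGraph (Fin n)).lineGraph

/-- the edge `uv` of `K_n` -/
def mk {n : ℕ} (u v : Fin n) (h : u ≠ v) : EK n :=
  ⟨s(u, v), by rw [SimpleGraph.mem_edgeSet, SimpleGraph.top_adj]; exact h⟩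

theorem mk_val {n : ℕ} (u v : Fin n) (h : u ≠ v) : (mk u v h : Sym2 (Fin n)) = s(u, v) := rfl

theorem exists_mk {n : ℕ} (x : EK n) : ∃ u v, ∃ h : u ≠ v, x = mk u v h := by
  obtain ⟨e, he⟩ := x
  induction e using Sym2.ind with
  | _ u v =>
    rw [SimpleGraph.mem_edgeSet, SimpleGraph.top_adj] at he
    exact ⟨u, v, he, rfl⟩

theorem disj_of {n k : ℕ} {g : Fin k → EK n} (hg : Function.Injective g)
    (h : ∀ j j', ¬ (LK n).Adj (g j) (g j')) {j j' : Fin k} (hj : j ≠ j') {v : Fin n}
    (h1 : v ∈ (g j : Sym2 (Fin n))) (h2 : v ∈ (g j' : Sym2 (Fin n))) : False := by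
  refine h j j' ?_
  rw [SimpleGraph.lineGraph_adj_iff_exists]
  exact ⟨fun h' => hj (hg h'), v, h1, h2⟩

theorem le_of_vertex {n k : ℕ} {g : Fin k → EK n} (hg : Function.Injective g)
    (h : ∀ j j', ¬ (LK n).Adj (g j) (g j')) (S : Finset (Fin n))
    (hS : ∀ j, ∃ v ∈ S, v ∈ (g j : Sym2 (Fin n))) : k ≤ S.card := by
  choose v hv1 hv2 using hS
  have hinj : Function.Injective v := by
    intro j j' hjj
    by_contra hne
    exact disj_of hg h hne (hv2 j) (hjj ▸ hv2 j')
  have := Finset.card_le_card_of_injOn (s := (univ : Finset (Fin k))) (t := S) v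
    (fun j _ => hv1 j) (fun a _ b _ hab => hinj hab)
  simpa using this

theorem upper (n : ℕ) (hn : 3 ≤ n) : ∃ D : BranchDec (EK n), width (LK n) D ≤ (n + 2) / 4 := by
  classical
  rcases Nat.lt_or_ge n 4 with h4 | h4
  · have h3 : n = 3 := by omega
    subst h3
    have hcard : Fintype.card (EK 3) = 3 := by
      have := SimpleGraph.card_edgeFinset_top_eq_card_choose_two (V := Fin 3)
      rw [Fintype.card_fin] at this
      rw [← Set.toFinset_card]
      exact this
    have e := Fintype.equivFinOfCardEq hcard
    refine exists_width_le (LK 3) e e.surjective _ ?_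
    intro i k g hg hi _
    have : k ≤ 1 := by
      by_contra hk
      push Not at hk
      have h1 := hi ⟨0, by omega⟩
      have h2 := hi ⟨1, hk⟩
      have h3 := hg (e.injective (h1.trans h2.symm))
      simp at h3
    omega
  · set t := (n + 2) / 4 with ht
    have ht1 : 1 ≤ t := by omega
    have ht2 : 2 * t ≤ n - 2 := by omega
    have ht3 : n ≤ 4 * t + 1 := by omega
    refine exists_width_le (LK n) (fun x => if ∃ v ∈ (x : Sym2 (Fin n)), (v : ℕ) < t then 1
      else if ∃ v ∈ (x : Sym2 (Fin n)), (v : ℕ) < 2 * t then 2 else 0) ?_ t ?_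
    · intro i
      have h3 : i = 0 ∨ i = 1 ∨ i = 2 := by fin_cases i <;> simp
      rcases h3 with rfl | rfl | rfl
      · refine ⟨mk ⟨n - 2, by omega⟩ ⟨n - 1, by omega⟩ (by
          intro h; rw [Fin.mk.injEq] at h; omega), ?_⟩
        beta_reduce
        rw [if_neg, if_neg]
        · rintro ⟨v, hv, hlt⟩
          rw [mk_val, Sym2.mem_iff] at hv
          rcases hv with rfl | rfl <;> simp only at hlt <;> omega
        · rintro ⟨v, hv, hlt⟩
          rw [mk_val, Sym2.mem_iff] at hv
          rcases hv with rfl | rfl <;> simp only at hlt <;> omega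
      · refine ⟨mk ⟨0, by omega⟩ ⟨n - 1, by omega⟩ (by
          intro h; rw [Fin.mk.injEq] at h; omega), ?_⟩
        beta_reduce
        rw [if_pos]
        exact ⟨⟨0, by omega⟩, by rw [mk_val]; exact Sym2.mem_mk_left _ _, by simp only; omega⟩
      · refine ⟨mk ⟨t, by omega⟩ ⟨n - 1, by omega⟩ (by
          intro h; rw [Fin.mk.injEq] at h; omega), ?_⟩
        beta_reduce
        rw [if_neg, if_pos]
        · exact ⟨⟨t, by omega⟩, by rw [mk_val]; exact Sym2.mem_mk_left _ _, by simp only; omega⟩
        · rintro ⟨v, hv, hlt⟩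
          rw [mk_val, Sym2.mem_iff] at hv
          rcases hv with rfl | rfl <;> simp only at hlt <;> omega
    · intro i k g hg hi hadj
      have h3 : i = 0 ∨ i = 1 ∨ i = 2 := by fin_cases i <;> simp
      rcases h3 with rfl | rfl | rfl
      · -- all vertices are at least 2t
        have hi' : ∀ j, ∀ v ∈ (g j : Sym2 (Fin n)), 2 * t ≤ (v : ℕ) := by
          intro j v hv
          have := hi j
          by_contra hlt
          push Not at hlt
          by_cases h1 : ∃ v ∈ (g j : Sym2 (Fin n)), (v : ℕ) < t
          · rw [if_pos h1] at this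
            exact absurd this (by decide)
          · rw [if_neg h1, if_pos ⟨v, hv, hlt⟩] at this
            exact absurd this (by decide)
        choose a b hab hgab using fun j => exists_mk (g j)
        have hma : ∀ j, a j ∈ (g j : Sym2 (Fin n)) := by
          intro j; rw [hgab j, mk_val]; exact Sym2.mem_mk_left _ _
        have hmb : ∀ j, b j ∈ (g j : Sym2 (Fin n)) := by
          intro j; rw [hgab j, mk_val]; exact Sym2.mem_mk_right _ _
        have hinj : Function.Injective (Sum.elim a b) := by
          intro x y hxy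
          cases x with
          | inl j =>
            cases y with
            | inl j' =>
              simp only [Sum.elim_inl] at hxy
              by_contra hne
              exact disj_of hg hadj (fun h => hne (by rw [h])) (hma j) (hxy ▸ hma j')
            | inr j' =>
              simp only [Sum.elim_inl, Sum.elim_inr] at hxy
              exfalso
              by_cases hjj : j = j'
              · subst hjj; exact hab j hxy
              · exact disj_of hg hadj hjj (hma j) (hxy ▸ hmb j')
          | inr j =>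
            cases y with
            | inl j' =>
              simp only [Sum.elim_inl, Sum.elim_inr] at hxy
              exfalso
              by_cases hjj : j = j'
              · subst hjj; exact hab j hxy.symm
              · exact disj_of hg hadj hjj (hmb j) (hxy ▸ hma j')
            | inr j' =>
              simp only [Sum.elim_inr] at hxy
              by_contra hne
              exact disj_of hg hadj (fun h => hne (by rw [h])) (hmb j) (hxy ▸ hmb j')
        have hle := Finset.card_le_card_of_injOn (s := (univ : Finset (Fin k ⊕ Fin k)))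
          (t := univ.filter (fun v : Fin n => 2 * t ≤ (v : ℕ))) (Sum.elim a b)
          (fun x _ => by
            cases x with
            | inl j => exact mem_coe.2 (mem_filter.2 ⟨mem_univ _, hi' j _ (hma j)⟩)
            | inr j => exact mem_coe.2 (mem_filter.2 ⟨mem_univ _, hi' j _ (hmb j)⟩))
          (fun x _ y _ hxy => hinj hxy)
        have hc : (univ.filter (fun v : Fin n => 2 * t ≤ (v : ℕ))).card ≤ n - 2 * t := by
          have h1 := Finset.card_le_card_of_injOn
            (s := univ.filter (fun v : Fin n => 2 * t ≤ (v : ℕ))) (t := range (n - 2 * t))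
            (fun v => (v : ℕ) - 2 * t)
            (fun v hv => by
              have := (mem_filter.1 (mem_coe.1 hv)).2
              have h3 := v.2
              refine mem_coe.2 (mem_range.2 ?_)
              show (v : ℕ) - 2 * t < n - 2 * t
              omega)
            (fun v hv w hw hvw => by
              have h1 := (mem_filter.1 (mem_coe.1 hv)).2
              have h2 := (mem_filter.1 (mem_coe.1 hw)).2
              simp only at hvw
              exact Fin.ext (by omega))
          rwa [card_range] at h1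
        rw [card_univ, Fintype.card_sum, Fintype.card_fin] at hle
        omega
      · have hS : ∀ j, ∃ v ∈ univ.filter (fun v : Fin n => (v : ℕ) < t),
            v ∈ (g j : Sym2 (Fin n)) := by
          intro j
          have := hi j
          by_cases h1 : ∃ v ∈ (g j : Sym2 (Fin n)), (v : ℕ) < t
          · obtain ⟨v, hv, hlt⟩ := h1
            exact ⟨v, mem_filter.2 ⟨mem_univ _, hlt⟩, hv⟩
          · exfalso
            rw [if_neg h1] at this
            by_cases h2 : ∃ v ∈ (g j : Sym2 (Fin n)), (v : ℕ) < 2 * t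
            · rw [if_pos h2] at this
              exact absurd this (by decide)
            · rw [if_neg h2] at this
              exact absurd this (by decide)
        refine le_trans (le_of_vertex hg hadj _ hS) ?_
        have h1 := Finset.card_le_card_of_injOn
            (s := univ.filter (fun v : Fin n => (v : ℕ) < t)) (t := range t)
            (fun v => (v : ℕ))
            (fun v hv => mem_coe.2 (mem_range.2 (mem_filter.1 (mem_coe.1 hv)).2))
            (fun v _ w _ hvw => Fin.ext hvw)
        rwa [card_range] at h1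
      · have hS : ∀ j, ∃ v ∈ univ.filter (fun v : Fin n => t ≤ (v : ℕ) ∧ (v : ℕ) < 2 * t),
            v ∈ (g j : Sym2 (Fin n)) := by
          intro j
          have := hi j
          by_cases h1 : ∃ v ∈ (g j : Sym2 (Fin n)), (v : ℕ) < t
          · rw [if_pos h1] at this
            exact absurd this (by decide)
          rw [if_neg h1] at this
          by_cases h2 : ∃ v ∈ (g j : Sym2 (Fin n)), (v : ℕ) < 2 * t
          · obtain ⟨v, hv, hlt⟩ := h2
            refine ⟨v, mem_filter.2 ⟨mem_univ _, ?_, hlt⟩, hv⟩
            by_contra hlt'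
            exact h1 ⟨v, hv, by omega⟩
          · rw [if_neg h2] at this
            exact absurd this (by decide)
        refine le_trans (le_of_vertex hg hadj _ hS) ?_
        have h1 := Finset.card_le_card_of_injOn
            (s := univ.filter (fun v : Fin n => t ≤ (v : ℕ) ∧ (v : ℕ) < 2 * t)) (t := range t)
            (fun v => (v : ℕ) - t)
            (fun v hv => by
              have := (mem_filter.1 (mem_coe.1 hv)).2
              refine mem_coe.2 (mem_range.2 ?_)
              show (v : ℕ) - t < t
              omega)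
            (fun v hv w hw hvw => by
              have h1 := (mem_filter.1 (mem_coe.1 hv)).2
              have h2 := (mem_filter.1 (mem_coe.1 hw)).2
              simp only at hvw
              exact Fin.ext (by omega))
        rwa [card_range] at h1

/-- adjacency through an edge in `A` -/
def E {n : ℕ} (A : Set (EK n)) (u v : Fin n) : Prop := ∃ x ∈ A, (x : Sym2 (Fin n)) = s(u, v)

theorem E_symm {n : ℕ} (A : Set (EK n)) (u v : Fin n) (h : E A u v) : E A v u := by
  obtain ⟨x, hx, hxe⟩ := h
  exact ⟨x, hx, by rw [hxe, Sym2.eq_swap]⟩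

theorem cut_of_tri {n m : ℕ} {A B : Set (EK n)} (hAB : ∀ x ∈ B, x ∉ A)
    (h : Tri (E A) (E B) univ m) : IsCut (LK n) A m := by
  obtain ⟨a, b, c, h1, h2⟩ := h
  choose e heA he using fun i => (h1 i).2.2.2.2.2.2.1
  choose f hfB hf using fun i => (h1 i).2.2.2.2.2.2.2
  have hea : ∀ i v, v ∈ (e i : Sym2 (Fin n)) → v ∈ ({a i, b i, c i} : Finset (Fin n)) := by
    intro i v hv
    rw [he i, Sym2.mem_iff] at hv
    rcases hv with rfl | rfl <;> simp
  have hfa : ∀ i v, v ∈ (f i : Sym2 (Fin n)) → v ∈ ({a i, b i, c i} : Finset (Fin n)) := by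
    intro i v hv
    rw [hf i, Sym2.mem_iff] at hv
    rcases hv with rfl | rfl <;> simp
  refine ⟨e, f, fun i => ⟨heA i, hAB _ (hfB i)⟩, ?_, ?_, ?_⟩
  · intro i j
    rw [SimpleGraph.lineGraph_adj_iff_exists]
    constructor
    · rintro ⟨_, v, hv1, hv2⟩
      by_contra hij
      exact h2 i j hij v (hea i v hv1) (hfa j v hv2)
    · rintro rfl
      refine ⟨fun h => hAB _ (hfB i) (h ▸ heA i), b i, ?_, ?_⟩
      · rw [he i]; exact Sym2.mem_mk_right _ _
      · rw [hf i]; exact Sym2.mem_mk_left _ _
  · intro i j
    rw [SimpleGraph.lineGraph_adj_iff_exists]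
    rintro ⟨hne, v, hv1, hv2⟩
    by_cases hij : i = j
    · exact hne (by rw [hij])
    · exact h2 i j hij v (hea i v hv1) (hea j v hv2)
  · intro i j
    rw [SimpleGraph.lineGraph_adj_iff_exists]
    rintro ⟨hne, v, hv1, hv2⟩
    by_cases hij : i = j
    · exact hne (by rw [hij])
    · exact h2 i j hij v (hfa i v hv1) (hfa j v hv2)

theorem lower (n : ℕ) (hn : 3 ≤ n) (D : BranchDec (EK n)) : (n + 2) / 4 ≤ width (LK n) D := by
  classical
  by_contra hlt
  push Not at hlt
  obtain ⟨t, ht⟩ : ∃ t, (n + 2) / 4 = t + 1 := ⟨(n + 2) / 4 - 1, by omega⟩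
  have hnt : 4 * t + 2 ≤ n := by omega
  haveI := D.fin
  set big : D.N → D.N → Prop := fun a b =>
    ∃ M, IsM (E (D.side a b)) univ M ∧ M.card = t + 1 with hbig
  have hacy := D.tree.isAcyclic
  have hconn := D.tree.connected
  have hcov : ∀ a b (x : EK n), x ∈ D.side a b ∨ x ∈ D.side b a := fun a b x =>
    comp_union hconn a b _
  have hdis : ∀ a b, D.T.Adj a b → ∀ x : EK n, x ∈ D.side a b → x ∉ D.side b a :=
    fun a b hab x hx => comp_disj hacy hab hx
  have hcovE : ∀ a b (u v : Fin n), u ≠ v → E (D.side a b) u v ∨ E (D.side b a) u v := by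
    intro a b u v huv
    rcases hcov a b (mk u v huv) with h | h
    · exact Or.inl ⟨_, h, mk_val u v huv⟩
    · exact Or.inr ⟨_, h, mk_val u v huv⟩
  have H1 : ∀ a b, D.T.Adj a b → big a b ∨ big b a := by
    intro a b _
    rcases three (P := E (D.side a b)) (Q := E (D.side b a)) (R := fun _ _ => False)
      (E_symm _) (E_symm _) (fun _ _ h => h)
      (fun u v huv => by
        rcases hcovE a b u v huv with h | h
        · exact Or.inl h
        · exact Or.inr (Or.inl h)) t univ (by rw [card_univ, Fintype.card_fin]; exact hnt)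
      with h | h | ⟨M, hM, hMc⟩
    · exact Or.inl h
    · exact Or.inr h
    · obtain ⟨p, hp⟩ := card_pos.1 (show 0 < M.card by omega)
      exact absurd (hM.mem p hp).2.2.2 id
  have H2 : ∀ a b, D.T.Adj a b → big a b → ¬ big b a := by
    rintro a b hab ⟨M, hM, hMc⟩ ⟨N, hN, hNc⟩
    have htri := tri_of (P := E (D.side a b)) (Q := E (D.side b a)) (E_symm _) (E_symm _)
      (hcovE a b) t univ M N (by rw [card_univ, Fintype.card_fin]; exact hn)
      (by rw [card_univ, Fintype.card_fin]; exact hnt) hM hN hMc hNc
    have hcut := cut_of_tri (fun x hx => hdis b a hab.symm x hx) htri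
    have := le_width hab hcut
    omega
  have hleafadj : ∀ v : D.N, (D.T.neighborSet v).ncard = 1 → ∃ a, D.T.neighborSet v = {a} :=
    fun v hv => Set.ncard_eq_one.1 hv
  have hedge : ∃ a b, D.T.Adj a b := by
    have x : EK n := mk ⟨0, by omega⟩ ⟨1, by omega⟩ (by intro h; rw [Fin.mk.injEq] at h; omega)
    obtain ⟨a, ha⟩ := hleafadj _ (D.leaf x).2
    have : a ∈ D.T.neighborSet (D.leaf x : D.N) := by rw [ha]; exact Set.mem_singleton _
    exact ⟨_, a, this⟩
  obtain ⟨b, hb⟩ := sink D.tree big hedge H1 H2
  rcases D.deg b with hd | hd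
  · obtain ⟨a, ha⟩ := hleafadj b hd
    have hba : D.T.Adj b a := by
      have : a ∈ D.T.neighborSet b := by rw [ha]; exact Set.mem_singleton _
      exact this
    have honly : ∀ w, D.T.Adj b w → w = a := by
      intro w hw
      have : w ∈ D.T.neighborSet b := hw
      rw [ha] at this
      exact this
    set xb := D.leaf.symm ⟨b, hd⟩ with hxb
    have hside : ∀ x, x ∈ D.side a b → x = xb := by
      intro x hx
      rcases comp_cover (T := D.T) hx with h | ⟨w, hw1, hw2, _⟩
      · rw [hxb, Equiv.eq_symm_apply]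
        exact Subtype.ext h
      · exact absurd (honly w hw1) hw2
    have hnb := hb a hba
    obtain ⟨M, hM, hMc⟩ : big a b := (H1 a b hba.symm).resolve_right hnb
    have ht0 : t = 0 := by
      by_contra ht0
      obtain ⟨p, hp, q, hq, hpq⟩ := Finset.one_lt_card.1 (show 1 < M.card by omega)
      obtain ⟨x, hx, hxe⟩ := (hM.mem p hp).2.2.2
      obtain ⟨y, hy, hye⟩ := (hM.mem q hq).2.2.2
      have hd := hM.disj p hp q hq hpq
      rw [hside x hx] at hxe
      rw [hside y hy, hxe, Sym2.eq_iff] at hye
      rcases hye with ⟨h, _⟩ | ⟨h, _⟩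
      · exact hd.1 h
      · exact hd.2.1 h
    subst ht0
    -- another edge
    have h01 : (⟨0, by omega⟩ : Fin n) ≠ ⟨1, by omega⟩ := by
      intro h; rw [Fin.mk.injEq] at h; omega
    have h02 : (⟨0, by omega⟩ : Fin n) ≠ ⟨2, by omega⟩ := by
      intro h; rw [Fin.mk.injEq] at h; omega
    have hex : ∃ u v, ∃ h : u ≠ v, mk (n := n) u v h ≠ xb := by
      by_contra hcon
      push Not at hcon
      have h1 := hcon _ _ h01
      have h2 := hcon _ _ h02
      have h3 : mk (n := n) _ _ h01 = mk _ _ h02 := h1.trans h2.symm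
      have h4 := congrArg Subtype.val h3
      rw [mk_val, mk_val, Sym2.eq_iff] at h4
      rcases h4 with ⟨_, h⟩ | ⟨h, _⟩ <;> rw [Fin.mk.injEq] at h <;> omega
    obtain ⟨u, v, huv, hne⟩ := hex
    have hmem : mk u v huv ∈ D.side b a :=
      (hcov a b (mk u v huv)).resolve_left (fun h => hne (hside _ h))
    exact hnb ⟨_, IsM.single (mem_univ u) (mem_univ v) huv ⟨_, hmem, mk_val u v huv⟩,
      card_singleton _⟩
  · obtain ⟨w1, w2, w3, h12, h13, h23, hw⟩ := Set.ncard_eq_three.1 hd
    have hadj : ∀ w, D.T.Adj b w ↔ w = w1 ∨ w = w2 ∨ w = w3 := by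
      intro w
      rw [← SimpleGraph.mem_neighborSet, hw]
      simp
    have hcov3 : ∀ u v : Fin n, u ≠ v → E (D.side b w1) u v ∨ E (D.side b w2) u v ∨
        E (D.side b w3) u v := by
      intro u v huv
      have hx : ∃ w, D.T.Adj b w ∧ mk u v huv ∈ D.side b w := by
        rcases hcov w1 b (mk u v huv) with h | h
        · rcases comp_cover (T := D.T) h with h' | ⟨w, hw1, _, hw3⟩
          · exfalso
            have := (D.leaf (mk u v huv)).2
            rw [h', hd] at this
            omega
          · exact ⟨w, hw1, hw3⟩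
        · exact ⟨w1, (hadj w1).2 (Or.inl rfl), h⟩
      obtain ⟨w, hbw, hm⟩ := hx
      rcases (hadj w).1 hbw with rfl | rfl | rfl
      · exact Or.inl ⟨_, hm, mk_val u v huv⟩
      · exact Or.inr (Or.inl ⟨_, hm, mk_val u v huv⟩)
      · exact Or.inr (Or.inr ⟨_, hm, mk_val u v huv⟩)
    rcases three (E_symm _) (E_symm _) (E_symm _) hcov3 t univ
      (by rw [card_univ, Fintype.card_fin]; exact hnt) with h | h | h
    · exact hb w1 ((hadj w1).2 (Or.inl rfl)) h
    · exact hb w2 ((hadj w2).2 (Or.inr (Or.inl rfl))) h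
    · exact hb w3 ((hadj w3).2 (Or.inr (Or.inr rfl))) h

/-- **Result.**  The sim-width of the line graph of `K_n` is `⌊(n+2)/4⌋ = ⌈(n-1)/4⌉` for every
`n ≥ 3` (and `0` for `n ≤ 2`). -/
theorem result :
    (∀ n : ℕ, 3 ≤ n → simw ((⊤ : SimpleGraph (Fin n)).lineGraph) = (n + 2) / 4) ∧
    (∀ n : ℕ, n ≤ 2 → simw ((⊤ : SimpleGraph (Fin n)).lineGraph) = 0) := by
  refine ⟨?_, ?_⟩
  · intro n hn
    have hcard : ¬ Nat.card (EK n) ≤ 1 := by
      intro h
      have h01 : (⟨0, by omega⟩ : Fin n) ≠ ⟨1, by omega⟩ := by
        intro h; rw [Fin.mk.injEq] at h; omega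
      have h02 : (⟨0, by omega⟩ : Fin n) ≠ ⟨2, by omega⟩ := by
        intro h; rw [Fin.mk.injEq] at h; omega
      have hs : Subsingleton (EK n) := Finite.card_le_one_iff_subsingleton.1 h
      have h3 : mk (n := n) _ _ h01 = mk _ _ h02 := Subsingleton.elim _ _
      have h4 := congrArg Subtype.val h3
      rw [mk_val, mk_val, Sym2.eq_iff] at h4
      rcases h4 with ⟨_, h⟩ | ⟨h, _⟩ <;> rw [Fin.mk.injEq] at h <;> omega
    unfold simw
    rw [if_neg hcard]
    obtain ⟨D, hD⟩ := upper n hn
    have hw : width (LK n) D = (n + 2) / 4 := le_antisymm hD (lower n hn D)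
    refine le_antisymm ?_ ?_
    · exact Nat.sInf_le ⟨D, hw.symm⟩
    · refine le_csInf ⟨_, D, rfl⟩ ?_
      rintro w ⟨D', rfl⟩
      exact lower n hn D'
  · intro n hn
    have hcard : Nat.card (EK n) ≤ 1 := by
      rw [Finite.card_le_one_iff_subsingleton]
      refine ⟨fun x y => ?_⟩
      obtain ⟨a, b, hab, rfl⟩ := exists_mk x
      obtain ⟨c, d, hcd, rfl⟩ := exists_mk y
      refine Subtype.ext ?_
      rw [mk_val, mk_val, Sym2.eq_iff]
      have ha := a.2
      have hb := b.2
      have hc := c.2
      have hd := d.2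
      have h1 : (a : ℕ) ≠ b := fun h => hab (Fin.ext h)
      have h2 : (c : ℕ) ≠ d := fun h => hcd (Fin.ext h)
      by_cases h : (a : ℕ) = c
      · left; exact ⟨Fin.ext h, Fin.ext (by omega)⟩
      · right; exact ⟨Fin.ext (by omega), Fin.ext (by omega)⟩
    unfold simw
    rw [if_pos hcard]

end Pool.Agent.Results.MP_598d44_co.ExactValue
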